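import Mathlib

set_option autoImplicit false

/-!
# Real estimates
-/

namespace Pool.Agent.U827.LD

open Finset Real

/-- Partial sums of binomial coefficients. -/
theorem sum_choose_le (M T : ℕ) (lam : ℝ) (h0 : 0 < lam) (h1 : lam ≤ 1) :
    ((∑ i ∈ range (T + 1), M.choose i : ℕ) : ℝ) * lam ^ T ≤ (1 + lam) ^ M := by
  have h2 : (1 + lam) ^ M = ∑ i ∈ range (M + 1), lam ^ i * (M.choose i : ℝ) := by
    rw [add_comm, add_pow]
    exact Finset.sum_congr rfl fun i _ => by rw [one_pow, mul_one]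
  have h3 : ∑ i ∈ range (T + 1), lam ^ i * (M.choose i : ℝ) ≤ (1 + lam) ^ M := by
    rw [h2]
    rcases le_total T M with h | h
    · apply Finset.sum_le_sum_of_subset_of_nonneg
      · exact Finset.range_mono (by omega)
      · intro i _ _; positivity
    · apply le_of_eq
      symm
      apply Finset.sum_subset (Finset.range_mono (by omega))
      intro i _ hi
      rw [mem_range] at hi
      rw [Nat.choose_eq_zero_of_lt (by omega)]
      simp
  refine le_trans ?_ h3
  push_cast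
  rw [Finset.sum_mul]
  apply Finset.sum_le_sum
  intro i hi
  rw [mem_range] at hi
  rw [mul_comm]
  apply mul_le_mul_of_nonneg_right _ (by positivity)
  exact pow_le_pow_of_le_one h0.le h1 (by omega)

theorem log_sum_choose_le (N M T : ℕ) (hN : 1 ≤ N) (hNle : N ≤ ∑ i ∈ range (T + 1), M.choose i)
    (lam : ℝ) (h0 : 0 < lam) (h1 : lam ≤ 1) :
    log N ≤ T * log (1 / lam) + M * log (1 + lam) := by
  have h2 := sum_choose_le M T lam h0 h1
  have hN0 : (0 : ℝ) < N := by exact_mod_cast hN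
  have h3 : (N : ℝ) * lam ^ T ≤ (1 + lam) ^ M := by
    refine le_trans ?_ h2
    apply mul_le_mul_of_nonneg_right _ (by positivity)
    exact_mod_cast hNle
  have h4 := log_le_log (by positivity) h3
  rw [log_mul hN0.ne' (by positivity), log_pow, log_pow] at h4
  rw [one_div, log_inv]
  linarith

/-- growth rate: the binary entropy -/
theorem log_le_entropy (N k T : ℕ) (hN : 1 ≤ N)
    (hNle : N ≤ ∑ i ∈ range (T + 1), (2 * k - 3).choose i) (ε : ℝ) (h0 : 0 < ε) (h1 : ε ≤ 1)
    (hT : (T : ℝ) ≤ ε * k + 1) :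
    log N ≤ 2 * binEntropy (ε / 2) * k + log (2 / ε) := by
  have hy0 : 0 < ε / 2 := by positivity
  have hy1 : 0 < 1 - ε / 2 := by linarith
  have hl0 : 0 < (ε / 2) / (1 - ε / 2) := by positivity
  have hl1 : (ε / 2) / (1 - ε / 2) ≤ 1 := by
    rw [div_le_one hy1]; linarith
  have h := log_sum_choose_le N (2 * k - 3) T hN hNle _ hl0 hl1
  have e1 : (1 : ℝ) + (ε / 2) / (1 - ε / 2) = (1 - ε / 2)⁻¹ := by
    apply eq_inv_of_mul_eq_one_left
    rw [add_mul, div_mul_cancel₀ _ hy1.ne']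
    ring
  have e2 : (1 : ℝ) / ((ε / 2) / (1 - ε / 2)) = (1 - ε / 2) / (ε / 2) := by
    rw [one_div, inv_div]
  rw [e1, e2, log_inv, log_div hy1.ne' hy0.ne'] at h
  have hM : (((2 * k - 3 : ℕ)) : ℝ) ≤ 2 * k := by
    have : 2 * k - 3 ≤ 2 * k := Nat.sub_le _ _
    exact_mod_cast this
  have hlog1 : log (1 - ε / 2) ≤ 0 := log_nonpos hy1.le (by linarith)
  have hge : 0 ≤ log (1 - ε / 2) - log (ε / 2) := by
    have : log (ε / 2) ≤ log (1 - ε / 2) := log_le_log hy0 (by linarith)
    linarith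
  have h5 : (T : ℝ) * (log (1 - ε / 2) - log (ε / 2)) ≤
      (ε * k + 1) * (log (1 - ε / 2) - log (ε / 2)) := mul_le_mul_of_nonneg_right hT hge
  have h6 : (((2 * k - 3 : ℕ)) : ℝ) * -log (1 - ε / 2) ≤ 2 * k * -log (1 - ε / 2) :=
    mul_le_mul_of_nonneg_right hM (by linarith)
  have h7 : log (2 / ε) = - log (ε / 2) := by
    rw [← log_inv, inv_div]
  rw [h7, binEntropy_eq_negMulLog_add_negMulLog_one_sub]
  unfold negMulLog
  nlinarith

end Pool.Agent.U827.LD
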