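import Pool.Agent.U827.LD.Defs

set_option autoImplicit false

/-!
# The finite upper bound: colourings of bounded Littlestone dimension
-/

namespace Pool.Agent.U827.LD

open Finset

/-- the bound -/
def B (T s : ℕ) : ℕ := ∑ i ∈ range T, (s - 1).choose (i + 1)

theorem B_rec (T s : ℕ) (hs : 1 ≤ s) : B (T + 1) (s + 1) = 1 + B T s + B (T + 1) s := by
  obtain ⟨r, rfl⟩ : ∃ r, s = r + 1 := ⟨s - 1, by omega⟩
  unfold B
  simp only [Nat.add_sub_cancel]
  have h1 : ∀ i, (r + 1).choose (i + 1) = r.choose i + r.choose (i + 1) := fun i =>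
    Nat.choose_succ_succ r i
  simp_rw [h1]
  rw [Finset.sum_add_distrib]
  rw [Finset.sum_range_succ' (fun i => r.choose i) T]
  simp only [Nat.choose_zero_right]
  ring

theorem B_mono {T s s' : ℕ} (h : s ≤ s') : B T s ≤ B T s' := by
  unfold B
  exact Finset.sum_le_sum fun i _ => Nat.choose_le_choose _ (by omega)

/-- The recursion. -/
theorem card_le_B {V : Type} [DecidableEq V] (G : SimpleGraph V) : ∀ (s T a b : ℕ) (X : Finset V),
    a + b = s → ¬ Tree G T (X : Set V) →
    (∀ S : Finset V, S ⊆ X → G.IsClique (S : Set V) → S.card ≤ a) →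
    (∀ S : Finset V, S ⊆ X → Gᶜ.IsClique (S : Set V) → S.card ≤ b) → X.card ≤ B T s := by
  classical
  intro s
  induction s using Nat.strong_induction_on with
  | _ s ih =>
  intro T a b X hab hT hred hblue
  rcases X.eq_empty_or_nonempty with rfl | ⟨v, hv⟩
  · simp
  have ha : 1 ≤ a := by
    have := hred {v} (by simpa using hv) (by simp)
    simpa using this
  have hb : 1 ≤ b := by
    have := hblue {v} (by simpa using hv) (by simp)
    simpa using this
  obtain ⟨T, rfl⟩ : ∃ T', T = T' + 1 := by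
    rcases T with _ | T'
    · exact absurd ⟨v, hv⟩ hT
    · exact ⟨T', rfl⟩
  obtain ⟨s, rfl⟩ : ∃ s', s = s' + 1 := ⟨s - 1, by omega⟩
  set X1 := X.filter (fun x => G.Adj v x) with hX1
  set X2 := (X.erase v).filter (fun x => ¬ G.Adj v x) with hX2
  have hcard : X.card = 1 + X1.card + X2.card := by
    have h1 := Finset.card_filter_add_card_filter_not (s := X.erase v) (fun x => G.Adj v x)
    have h2 : (X.erase v).filter (fun x => G.Adj v x) = X1 := by
      rw [hX1]
      ext x
      simp only [mem_filter, mem_erase]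
      constructor
      · rintro ⟨⟨-, h⟩, h'⟩; exact ⟨h, h'⟩
      · rintro ⟨h, h'⟩; exact ⟨⟨fun hx => (G.ne_of_adj h') hx.symm, h⟩, h'⟩
    rw [h2, ← hX2, card_erase_of_mem hv] at h1
    have h3 : 0 < X.card := card_pos.2 ⟨v, hv⟩
    omega
  -- the clique numbers of the parts
  have hr1 : ∀ S : Finset V, S ⊆ X1 → G.IsClique (S : Set V) → S.card ≤ a - 1 := by
    intro S hS hc
    have hvS : v ∉ S := fun h => by
      have := (mem_filter.1 (hS h)).2
      exact G.loopless.irrefl v this
    have h1 := hred (insert v S) (by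
      intro x hx
      rcases mem_insert.1 hx with rfl | hx
      · exact hv
      · exact (mem_filter.1 (hS hx)).1) (by
      rw [coe_insert, SimpleGraph.isClique_insert]
      exact ⟨hc, fun x hx _ => (mem_filter.1 (hS hx)).2⟩)
    rw [card_insert_of_notMem hvS] at h1
    omega
  have hb1 : ∀ S : Finset V, S ⊆ X1 → Gᶜ.IsClique (S : Set V) → S.card ≤ b :=
    fun S hS hc => hblue S (hS.trans (filter_subset _ _)) hc
  have hr2 : ∀ S : Finset V, S ⊆ X2 → G.IsClique (S : Set V) → S.card ≤ a :=
    fun S hS hc => hred S (hS.trans ((filter_subset _ _).trans (erase_subset _ _))) hc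
  have hb2 : ∀ S : Finset V, S ⊆ X2 → Gᶜ.IsClique (S : Set V) → S.card ≤ b - 1 := by
    intro S hS hc
    have hvS : v ∉ S := fun h => by
      have := (mem_filter.1 (hS h)).1
      exact (mem_erase.1 this).1 rfl
    have h1 := hblue (insert v S) (by
      intro x hx
      rcases mem_insert.1 hx with rfl | hx
      · exact hv
      · exact (mem_erase.1 (mem_filter.1 (hS hx)).1).2) (by
      rw [coe_insert, SimpleGraph.isClique_insert]
      refine ⟨hc, fun x hx hne => ?_⟩
      rw [SimpleGraph.compl_adj]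
      exact ⟨hne, (mem_filter.1 (hS hx)).2⟩)
    rw [card_insert_of_notMem hvS] at h1
    omega
  have hs1 : 1 ≤ s := by omega
  rw [hcard, B_rec T s hs1]
  have hX1s : (X1 : Set V) ⊆ (X : Set V) := by
    exact_mod_cast filter_subset _ _
  have hX2s : (X2 : Set V) ⊆ (X : Set V) := by
    exact_mod_cast (filter_subset _ _).trans (erase_subset _ _)
  have hT' : ¬ Tree G T (X1 : Set V) ∨ ¬ Tree G T (X2 : Set V) := by
    by_contra hcon
    push Not at hcon
    apply hT
    refine ⟨v, ?_, ?_⟩
    · refine Tree.mono ?_ hcon.1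
      intro x hx
      have := mem_filter.1 (mem_coe.1 hx)
      exact ⟨mem_coe.2 this.1, this.2⟩
    · refine Tree.mono ?_ hcon.2
      intro x hx
      have := mem_filter.1 (mem_coe.1 hx)
      exact ⟨mem_coe.2 (mem_erase.1 this.1).2, this.2⟩
  have hT1 : ¬ Tree G (T + 1) (X1 : Set V) := fun h => hT (Tree.mono hX1s h)
  have hT2 : ¬ Tree G (T + 1) (X2 : Set V) := fun h => hT (Tree.mono hX2s h)
  rcases hT' with h | h
  · have e1 := ih s (by omega) T (a - 1) b X1 (by omega) h hr1 hb1
    have e2 := ih s (by omega) (T + 1) a (b - 1) X2 (by omega) hT2 hr2 hb2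
    omega
  · have e1 := ih s (by omega) (T + 1) (a - 1) b X1 (by omega) hT1 hr1 hb1
    have e2 := ih s (by omega) T a (b - 1) X2 (by omega) h hr2 hb2
    omega

/-- **The finite upper bound.** -/
theorem upper {n : ℕ} (a b t : ℕ) (G : SimpleGraph (Fin n)) (hG : G.CliqueFree (a + 1))
    (hG' : Gᶜ.CliqueFree (b + 1)) (h : LdimLe G t) :
    n ≤ ∑ i ∈ range (t + 1), (a + b - 1).choose (i + 1) := by
  have key := card_le_B G (a + b) (t + 1) a b (univ : Finset (Fin n)) rfl (by
    rw [coe_univ]; exact h) ?_ ?_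
  · rw [card_univ, Fintype.card_fin] at key
    exact key
  · intro S _ hc
    by_contra hcon
    exact (hG.mono (show a + 1 ≤ S.card by omega)) S ⟨hc, rfl⟩
  · intro S _ hc
    by_contra hcon
    exact (hG'.mono (show b + 1 ≤ S.card by omega)) S ⟨hc, rfl⟩

end Pool.Agent.U827.LD
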