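import Pool.Agent.U827.LD.Low2
import Pool.Agent.U827.LD.Num
import Pool.Agent.U827.LD.Upper

set_option autoImplicit false

/-!
# Asymptotics
-/

namespace Pool.Agent.U827.LD

open Finset Real Filter Topology

theorem eventually_t (D : ℕ) (hD : 1 ≤ D) : ∀ᶠ t : ℕ in atTop,
    (2 * ((t + 1) * D)) ^ D ≤ 2 ^ t := by
  have h := tendsto_pow_const_div_const_pow_of_one_lt D (show (1 : ℝ) < 2 by norm_num)
  have hpos : (0 : ℝ) < 1 / (4 * D) ^ D := by positivity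
  filter_upwards [h.eventually_lt_const hpos, eventually_ge_atTop 1] with t ht ht1
  have h2 : (0 : ℝ) < 2 ^ t := by positivity
  rw [div_lt_iff₀ h2, one_div, inv_mul_eq_div, lt_div_iff₀ (by positivity)] at ht
  have h3 : ((2 * ((t + 1) * D) : ℕ) : ℝ) ^ D ≤ (2 : ℝ) ^ t := by
    have ht1R : (1 : ℝ) ≤ t := by exact_mod_cast ht1
    calc ((2 * ((t + 1) * D) : ℕ) : ℝ) ^ D ≤ ((t : ℝ) * (4 * D)) ^ D := by
          apply pow_le_pow_left₀ (by positivity)
          push_cast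
          have : (0 : ℝ) ≤ D := Nat.cast_nonneg _
          nlinarith
      _ = (t : ℝ) ^ D * (4 * D) ^ D := mul_pow _ _ _
      _ ≤ 2 ^ t := ht.le
  exact_mod_cast h3

theorem eventually_x (η : ℝ) (h0 : 0 < η) : ∀ᶠ x : ℝ in atTop,
    4 * log x ≤ x ^ (η / 4) ∧ 2 ≤ x ^ (η / 4) ∧ 1 ≤ log x ∧ 1 ≤ x := by
  have hη : 0 < η / 4 := by positivity
  have h1 := (isLittleO_log_rpow_atTop hη).bound (show (0 : ℝ) < 1 / 4 by norm_num)
  have h2 := (tendsto_rpow_atTop hη).eventually_ge_atTop 2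
  have h3 := tendsto_log_atTop.eventually_ge_atTop 1
  filter_upwards [h1, h2, h3, eventually_ge_atTop (1 : ℝ)] with x a1 a2 a3 a4
  refine ⟨?_, a2, a3, a4⟩
  rw [norm_eq_abs, norm_eq_abs, abs_of_nonneg (by linarith : 0 ≤ log x),
    abs_of_nonneg (by positivity : 0 ≤ x ^ (η / 4))] at a1
  linarith

theorem lower_asy (η : ℝ) (h0 : 0 < η) (h1 : η ≤ 1) : ∃ A : ℕ, ∀ t k : ℕ, A ≤ t → A * t ≤ k →
    ∃ (n : ℕ) (G : SimpleGraph (Fin n)), G.CliqueFree k ∧ Gᶜ.CliqueFree k ∧ LdimLe G t ∧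
      (1 - η) * (t * log ((k : ℝ) / t)) ≤ log n := by
  obtain ⟨D, hD⟩ := exists_nat_ge (8 / η)
  have hD8 : 8 ≤ η * D := by
    rw [div_le_iff₀ h0] at hD; linarith
  have hD1 : 1 ≤ D := by
    by_contra hcon
    have : D = 0 := by omega
    subst this
    norm_num at hD8
  obtain ⟨A1, hA1⟩ := eventually_atTop.1 (eventually_t D hD1)
  obtain ⟨A2, hA2⟩ := eventually_atTop.1 (eventually_x η h0)
  obtain ⟨A3, hA3⟩ := exists_nat_ge A2
  obtain ⟨A4, hA4⟩ := exists_nat_ge (12 / η)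
  refine ⟨max (max A1 A3) (max A4 (8 * D)) + 1, fun t k ht hk => ?_⟩
  have b1 : A1 ≤ t := by omega
  have b2 : A4 ≤ t := by omega
  have b3 : 1 ≤ t := by omega
  have b4 : A3 * t ≤ k := le_trans (Nat.mul_le_mul_right t (by omega)) hk
  have b5 : 8 * D * t ≤ k := le_trans (Nat.mul_le_mul_right t (by omega)) hk
  have ht0 : (0 : ℝ) < t := by exact_mod_cast b3
  have hxA : A2 ≤ (k : ℝ) / t := by
    rw [le_div_iff₀ ht0]
    have f1 : (A3 : ℝ) * t ≤ k := by exact_mod_cast b4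
    have f2 : A2 * t ≤ A3 * t := mul_le_mul_of_nonneg_right hA3 ht0.le
    linarith
  obtain ⟨c1, c2, c3, c4⟩ := hA2 _ hxA
  have hy : 2 ≤ (t + 1) * D := by nlinarith
  have hs1 : (t + 1) * D ≤ 2 ^ Nat.clog 2 ((t + 1) * D) := Nat.le_pow_clog (by norm_num) _
  have hs2 : 2 ^ Nat.clog 2 ((t + 1) * D) ≤ 2 * ((t + 1) * D) := by
    have e1 := Nat.pow_pred_clog_lt_self (b := 2) (by norm_num) (x := (t + 1) * D) (by omega)
    have e2 : 0 < Nat.clog 2 ((t + 1) * D) := Nat.clog_pos (by norm_num) hy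
    obtain ⟨s, hs⟩ : ∃ s, Nat.clog 2 ((t + 1) * D) = s + 1 := ⟨_, (Nat.succ_pred_eq_of_pos e2).symm⟩
    rw [hs] at e1 ⊢
    rw [Nat.pred_succ] at e1
    rw [pow_succ]
    omega
  have hs3 : D * Nat.clog 2 ((t + 1) * D) ≤ t := by
    have e1 : (2 ^ Nat.clog 2 ((t + 1) * D)) ^ D ≤ 2 ^ t :=
      (Nat.pow_le_pow_left hs2 D).trans (hA1 t b1)
    rw [← pow_mul] at e1
    have e2 := (Nat.pow_le_pow_iff_right (by norm_num)).1 e1
    rw [mul_comm]; exact e2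
  apply lower_finite η h0 h1 D hD8 t k _ ((k : ℝ) / t) (div_mul_cancel₀ _ ht0.ne') c1 c2 c3 c4 _
    hs1 hs2 hs3 (by rw [← mul_assoc]; exact b5)
  have f1 : (A4 : ℝ) ≤ t := by exact_mod_cast b2
  rw [div_le_iff₀ h0] at hA4
  have f2 : (A4 : ℝ) * η ≤ t * η := mul_le_mul_of_nonneg_right f1 h0.le
  linarith

theorem upper_asy (η : ℝ) (h0 : 0 < η) : ∃ A : ℕ, ∀ t k N : ℕ, A ≤ t → A * t ≤ k → 1 ≤ N →
    N ≤ ∑ i ∈ range (t + 2), (2 * k - 3).choose i →
      log N ≤ (1 + η) * (t * log ((k : ℝ) / t)) := by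
  obtain ⟨A1, hA1⟩ := exists_nat_ge (2 / η)
  obtain ⟨A2, hA2⟩ := eventually_atTop.1 (tendsto_log_atTop.eventually_ge_atTop (6 / η + 1))
  obtain ⟨A3, hA3⟩ := exists_nat_ge A2
  refine ⟨max A1 A3 + 1, fun t k N ht hk hN hNle => ?_⟩
  have b1 : A1 ≤ t := by omega
  have b3 : 1 ≤ t := by omega
  have b4 : A3 * t ≤ k := le_trans (Nat.mul_le_mul_right t (by omega)) hk
  have b5 : 1 * t ≤ k := le_trans (Nat.mul_le_mul_right t (by omega)) hk
  have ht0 : (0 : ℝ) < t := by exact_mod_cast b3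
  have ht1 : (1 : ℝ) ≤ t := by exact_mod_cast b3
  have htk : (t : ℝ) ≤ k := by exact_mod_cast (by omega : t ≤ k)
  have hk0 : (0 : ℝ) < k := by linarith
  have hxA : A2 ≤ (k : ℝ) / t := by
    rw [le_div_iff₀ ht0]
    have f1 : (A3 : ℝ) * t ≤ k := by exact_mod_cast b4
    have f2 : A2 * t ≤ A3 * t := mul_le_mul_of_nonneg_right hA3 ht0.le
    linarith
  have hL := hA2 _ hxA
  obtain ⟨L, hLdef⟩ : ∃ L, L = log ((k : ℝ) / t) := ⟨_, rfl⟩
  rw [← hLdef] at hL ⊢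
  have hl0 : 0 < (t : ℝ) / (2 * k) := by positivity
  have hl1 : (t : ℝ) / (2 * k) ≤ 1 := by
    rw [div_le_one (by positivity)]; linarith
  have h := log_sum_choose_le N (2 * k - 3) (t + 1) hN hNle _ hl0 hl1
  have e1 : log (1 / ((t : ℝ) / (2 * k))) = log 2 + L := by
    rw [hLdef, one_div, inv_div, mul_div_assoc, log_mul (by norm_num) (by positivity)]
  rw [e1] at h
  have e2 : ((2 * k - 3 : ℕ) : ℝ) * log (1 + (t : ℝ) / (2 * k)) ≤ t := by
    have f1 : log (1 + (t : ℝ) / (2 * k)) ≤ (t : ℝ) / (2 * k) := by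
      have := log_le_sub_one_of_pos (show 0 < 1 + (t : ℝ) / (2 * k) by linarith)
      linarith
    have f2 : (((2 * k - 3 : ℕ)) : ℝ) ≤ 2 * k := by
      have : 2 * k - 3 ≤ 2 * k := Nat.sub_le _ _
      exact_mod_cast this
    calc ((2 * k - 3 : ℕ) : ℝ) * log (1 + (t : ℝ) / (2 * k)) ≤ (2 * k) * ((t : ℝ) / (2 * k)) := by
          apply mul_le_mul f2 f1 _ (by positivity)
          apply log_nonneg; linarith
      _ = t := by field_simp
  have hl2 : log 2 ≤ 1 := by have := log_two_lt_d9; linarith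
  push_cast at h
  have hA1' : 2 ≤ η * t := by
    have f1 : (A1 : ℝ) ≤ t := by exact_mod_cast b1
    rw [div_le_iff₀ h0] at hA1
    have f2 : (A1 : ℝ) * η ≤ t * η := mul_le_mul_of_nonneg_right f1 h0.le
    linarith
  have hη6 : 0 < 6 / η := by positivity
  have hL0 : 0 < L := by linarith
  have hηL : 6 ≤ η * L := by
    have : 6 / η ≤ L := by linarith
    rw [div_le_iff₀ h0] at this
    linarith
  -- (t + 1) (log 2 + L) + t ≤ (1 + η) t L
  have g1 : ((t : ℝ) + 1) * log 2 ≤ t + 1 := by nlinarith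
  have g2 : L ≤ (η / 2) * (t * L) := by nlinarith
  have g3 : 3 * (t : ℝ) ≤ (η / 2) * (t * L) := by nlinarith
  nlinarith

end Pool.Agent.U827.LD
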