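import Mathlib

set_option autoImplicit false

/-!
# Littlestone dimension of the neighbourhood system of a graph: definitions
-/

namespace Pool.Agent.U827.LD

/-- `Tree G d X`: the elements of `X` carry the leaves of a complete binary tree of depth `d`
whose inner nodes are labelled by vertices of `G`: for every inner node with label `v` the leaves
of one of its two subtrees are adjacent to `v`, those of the other one are not adjacent to `v`. -/
def Tree {V : Type} (G : SimpleGraph V) : ℕ → Set V → Prop
  | 0, X => X.Nonempty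
  | d + 1, X => ∃ v : V, Tree G d {x | x ∈ X ∧ G.Adj v x} ∧ Tree G d {x | x ∈ X ∧ ¬ G.Adj v x}

/-- The Littlestone dimension of the system of the neighbourhoods of `G` is at most `t`. -/
def LdimLe {V : Type} (G : SimpleGraph V) (t : ℕ) : Prop := ¬ Tree G (t + 1) Set.univ

theorem Tree.mono {V : Type} {G : SimpleGraph V} : ∀ {d : ℕ} {X Y : Set V}, X ⊆ Y →
    Tree G d X → Tree G d Y
  | 0, _, _, h, hX => Set.Nonempty.mono h hX
  | d + 1, X, Y, h, hX => by
      obtain ⟨v, h1, h2⟩ := hX
      exact ⟨v, Tree.mono (fun x hx => ⟨h hx.1, hx.2⟩) h1,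
        Tree.mono (fun x hx => ⟨h hx.1, hx.2⟩) h2⟩

theorem Tree.pred {V : Type} {G : SimpleGraph V} {d : ℕ} {X : Set V} (h : Tree G (d + 1) X) :
    Tree G d X := by
  obtain ⟨v, h1, -⟩ := h
  exact Tree.mono (fun x hx => hx.1) h1

theorem Tree.anti {V : Type} {G : SimpleGraph V} {d e : ℕ} {X : Set V} (hde : d ≤ e)
    (h : Tree G e X) : Tree G d X := by
  induction e, hde using Nat.le_induction with
  | base => exact h
  | succ e _ ih => exact ih h.pred

theorem LdimLe.mono {V : Type} {G : SimpleGraph V} {s t : ℕ} (hst : s ≤ t) (h : LdimLe G s) :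
    LdimLe G t := fun h1 => h (Tree.anti (by omega) h1)

/-- A tree of depth `d` has `2 ^ d` different leaves. -/
theorem Tree.two_pow_le {V : Type} {G : SimpleGraph V} : ∀ {d : ℕ} {X : Finset V},
    Tree G d (X : Set V) → 2 ^ d ≤ X.card
  | 0, X, h => by
      have : X.Nonempty := by
        obtain ⟨x, hx⟩ := h
        exact ⟨x, hx⟩
      simpa using Finset.card_pos.2 this
  | d + 1, X, h => by
      classical
      obtain ⟨v, h1, h2⟩ := h
      have h3 : Tree G d ((X.filter (fun x => G.Adj v x) : Finset V) : Set V) := by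
        rw [Finset.coe_filter]; exact h1
      have h4 : Tree G d ((X.filter (fun x => ¬ G.Adj v x) : Finset V) : Set V) := by
        rw [Finset.coe_filter]; exact h2
      have h5 := Tree.two_pow_le h3
      have h6 := Tree.two_pow_le h4
      have h7 := Finset.card_filter_add_card_filter_not (s := X) (fun x => G.Adj v x)
      rw [pow_succ]
      omega

theorem ldimLe_of_card {n : ℕ} (G : SimpleGraph (Fin n)) (t : ℕ) (h : n < 2 ^ (t + 1)) :
    LdimLe G t := by
  intro h1
  have h2 : Tree G (t + 1) ((Finset.univ : Finset (Fin n)) : Set (Fin n)) := by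
    rw [Finset.coe_univ]; exact h1
  have h3 := Tree.two_pow_le h2
  rw [Finset.card_univ, Fintype.card_fin] at h3
  omega

end Pool.Agent.U827.LD
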