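import Pool.Agent.U827.LD.Asy
import Pool.Agent.H818R2.Ram.Erdos

set_option autoImplicit false

/-!
# Ramsey numbers of colourings of bounded Littlestone dimension
-/

namespace Pool.Agent.U827.LD

open Finset Real Filter Topology

/-- The colouring with colour classes `G` and `Gᶜ` has no monochromatic `K_k`. -/
def NoMono {n : ℕ} (G : SimpleGraph (Fin n)) (k : ℕ) : Prop := G.CliqueFree k ∧ Gᶜ.CliqueFree k

/-- The least `n` such that every colouring of the edges of `K_n` of Littlestone dimension at most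
`t` has a monochromatic `K_k`. -/
noncomputable def ldRamsey (t k : ℕ) : ℕ :=
  sInf {n : ℕ | ∀ G : SimpleGraph (Fin n), LdimLe G t → ¬ NoMono G k}

/-- The diagonal Ramsey number `R(k,k)`. -/
noncomputable def ramsey (k : ℕ) : ℕ := sInf {n : ℕ | ∀ G : SimpleGraph (Fin n), ¬ NoMono G k}

theorem ramsey_eq (k : ℕ) : ramsey k = Pool.Agent.H818R2.Ram.R k k := by
  unfold ramsey Pool.Agent.H818R2.Ram.R Pool.Agent.H818R2.Ram.Arrows
  congr 1
  ext n
  simp only [Set.mem_ofPred_eq]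
  apply forall_congr'
  intro G
  unfold NoMono SimpleGraph.CliqueFree
  constructor
  · intro h
    by_contra hcon
    push Not at hcon
    exact h hcon
  · rintro (⟨s, hs⟩ | ⟨s, hs⟩) ⟨h1, h2⟩
    · exact h1 s hs
    · exact h2 s hs

/-- the number of lattice paths -/
def Sg (M t : ℕ) : ℕ := ∑ i ∈ range (t + 2), M.choose i

theorem Sg_eq (M t : ℕ) : Sg M t = (∑ i ∈ range (t + 1), M.choose (i + 1)) + 1 := by
  unfold Sg
  rw [Finset.sum_range_succ' (fun i => M.choose i) (t + 1)]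
  simp

theorem lt_Sg {n : ℕ} (a b t : ℕ) (G : SimpleGraph (Fin n)) (hG : G.CliqueFree (a + 1))
    (hG' : Gᶜ.CliqueFree (b + 1)) (h : LdimLe G t) : n < Sg (a + b - 1) t := by
  rw [Sg_eq]
  have := upper a b t G hG hG' h
  omega

theorem noMono_lt {n k t : ℕ} (hk : 2 ≤ k) (G : SimpleGraph (Fin n)) (hG : NoMono G k)
    (h : LdimLe G t) : n < Sg (2 * k - 3) t := by
  obtain ⟨a, rfl⟩ : ∃ a, k = a + 1 := ⟨k - 1, by omega⟩
  have := lt_Sg a a t G hG.1 hG.2 h
  rwa [show a + a - 1 = 2 * (a + 1) - 3 by omega] at this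

theorem ldRamsey_mem {t k : ℕ} (hk : 2 ≤ k) :
    Sg (2 * k - 3) t ∈ {n : ℕ | ∀ G : SimpleGraph (Fin n), LdimLe G t → ¬ NoMono G k} := by
  intro G h hG
  have := noMono_lt hk G hG h
  omega

theorem ldRamsey_le {t k : ℕ} (hk : 2 ≤ k) : ldRamsey t k ≤ Sg (2 * k - 3) t :=
  Nat.sInf_le (ldRamsey_mem hk)

theorem tree_comap {V W : Type} (f : V → W) (G : SimpleGraph W) : ∀ {d : ℕ} {X : Set V},
    Tree (G.comap f) d X → Tree G d (f '' X)
  | 0, _, h => Set.Nonempty.image f h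
  | d + 1, X, h => by
      obtain ⟨v, h1, h2⟩ := h
      refine ⟨f v, (tree_comap f G h1).mono ?_, (tree_comap f G h2).mono ?_⟩
      · rintro _ ⟨x, hx, rfl⟩
        exact ⟨⟨x, hx.1, rfl⟩, hx.2⟩
      · rintro _ ⟨x, hx, rfl⟩
        exact ⟨⟨x, hx.1, rfl⟩, hx.2⟩

/-- the induced colouring -/
theorem noMono_comap {n m k : ℕ} (hmn : m ≤ n) (G : SimpleGraph (Fin n)) (hG : NoMono G k) :
    NoMono (G.comap (Fin.castLE hmn)) k := by
  let e : G.comap (Fin.castLE hmn) ↪g G :=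
    SimpleGraph.Embedding.comap ⟨Fin.castLE hmn, Fin.castLE_injective hmn⟩ G
  exact ⟨hG.1.comap ⟨e.toCopy⟩, hG.2.comap ⟨(SimpleGraph.Embedding.complEquiv e).toCopy⟩⟩

theorem restrict {n m k t : ℕ} (hmn : m ≤ n) (G : SimpleGraph (Fin n)) (hG : NoMono G k)
    (h : LdimLe G t) : ∃ G' : SimpleGraph (Fin m), NoMono G' k ∧ LdimLe G' t := by
  refine ⟨G.comap (Fin.castLE hmn), noMono_comap hmn G hG, ?_⟩
  intro h1
  exact h ((tree_comap _ G h1).mono (Set.subset_univ _))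

theorem lt_ldRamsey {n k t : ℕ} (hk : 2 ≤ k) (G : SimpleGraph (Fin n)) (hG : NoMono G k)
    (h : LdimLe G t) : n < ldRamsey t k := by
  by_contra hcon
  push Not at hcon
  obtain ⟨G', h1, h2⟩ := restrict hcon G hG h
  have hm : ldRamsey t k ∈ {n : ℕ | ∀ G : SimpleGraph (Fin n), LdimLe G t → ¬ NoMono G k} :=
    Nat.sInf_mem ⟨_, ldRamsey_mem hk⟩
  exact hm G' h2 h1

theorem one_le_ldRamsey {k t : ℕ} (hk : 2 ≤ k) : 1 ≤ ldRamsey t k := by
  have h : LdimLe (⊥ : SimpleGraph (Fin 0)) t := ldimLe_of_card _ _ (by positivity)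
  have := lt_ldRamsey hk (⊥ : SimpleGraph (Fin 0)) ⟨?_, ?_⟩ h
  · omega
  · exact SimpleGraph.cliqueFree_of_card_lt (by rw [Fintype.card_fin]; omega)
  · exact SimpleGraph.cliqueFree_of_card_lt (by rw [Fintype.card_fin]; omega)

theorem ramsey_mem (k : ℕ) : ramsey k ∈ {n : ℕ | ∀ G : SimpleGraph (Fin n), ¬ NoMono G k} := by
  rw [ramsey_eq]
  intro G hG
  rcases Pool.Agent.H818R2.Ram.arrows_R k k G with ⟨s, hs⟩ | ⟨s, hs⟩
  · exact hG.1 s hs
  · exact hG.2 s hs

theorem ldRamsey_eq {t k : ℕ} (hk : 2 ≤ k) (h : ramsey k ≤ 2 ^ (t + 1)) :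
    ldRamsey t k = ramsey k := by
  apply le_antisymm
  · exact Nat.sInf_le (fun G _ => ramsey_mem k G)
  · by_contra hcon
    push Not at hcon
    have h1 : ldRamsey t k ∉ {n : ℕ | ∀ G : SimpleGraph (Fin n), ¬ NoMono G k} :=
      Nat.notMem_of_lt_sInf hcon
    simp only [Set.mem_ofPred_eq, not_forall, not_not] at h1
    obtain ⟨G, hG⟩ := h1
    have h2 := lt_ldRamsey hk G hG (ldimLe_of_card G t (by omega))
    omega

theorem ramsey_le (k : ℕ) (hk : 1 ≤ k) : ramsey k ≤ 2 ^ (2 * k - 2) := by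
  obtain ⟨a, rfl⟩ : ∃ a, k = a + 1 := ⟨k - 1, by omega⟩
  rw [ramsey_eq]
  calc Pool.Agent.H818R2.Ram.R (a + 1) (a + 1) ≤ (a + a).choose a :=
        Pool.Agent.H818R2.Ram.R_succ_le_choose a a
    _ ≤ 2 ^ (a + a) := Nat.choose_le_two_pow _ _
    _ = 2 ^ (2 * (a + 1) - 2) := by congr 1; omega

/-- exact growth -/
theorem exact (η : ℝ) (h0 : 0 < η) : ∃ A : ℕ, ∀ t k : ℕ, A ≤ t → A * t ≤ k →
    |log (ldRamsey t k) - t * log ((k : ℝ) / t)| ≤ η * (t * log ((k : ℝ) / t)) := by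
  obtain ⟨A1, hA1⟩ := lower_asy (min η 1) (by positivity) (min_le_right _ _)
  obtain ⟨A2, hA2⟩ := upper_asy η h0
  refine ⟨max A1 A2 + 2, fun t k ht hk => ?_⟩
  have b1 : A1 ≤ t := by omega
  have b2 : A2 ≤ t := by omega
  have b3 : A1 * t ≤ k := le_trans (Nat.mul_le_mul_right t (by omega)) hk
  have b4 : A2 * t ≤ k := le_trans (Nat.mul_le_mul_right t (by omega)) hk
  have b5 : 2 * t ≤ k := le_trans (Nat.mul_le_mul_right t (by omega)) hk
  have hk2 : 2 ≤ k := by omega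
  have ht0 : (0 : ℝ) < t := by
    have : 0 < t := by omega
    exact_mod_cast this
  have hL0 : 0 ≤ t * log ((k : ℝ) / t) := by
    apply mul_nonneg ht0.le
    apply log_nonneg
    rw [le_div_iff₀ ht0, one_mul]
    exact_mod_cast (by omega : t ≤ k)
  obtain ⟨n, G, g1, g2, g3, g4⟩ := hA1 t k b1 b3
  have hlt := lt_ldRamsey hk2 G ⟨g1, g2⟩ g3
  have hup := hA2 t k (ldRamsey t k) b2 b4 (one_le_ldRamsey hk2) (ldRamsey_le hk2)
  have hlog : log n ≤ log (ldRamsey t k) := by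
    rcases Nat.eq_zero_or_pos n with rfl | hn
    · rw [Nat.cast_zero, log_zero]
      apply log_nonneg
      exact_mod_cast one_le_ldRamsey hk2
    · apply log_le_log (by exact_mod_cast hn)
      exact_mod_cast hlt.le
  have hmin : (1 - η) * (t * log ((k : ℝ) / t)) ≤ (1 - min η 1) * (t * log ((k : ℝ) / t)) :=
    mul_le_mul_of_nonneg_right (by linarith [min_le_left η 1]) hL0
  rw [abs_le]
  constructor
  · linarith
  · linarith

/-- linear regime, upper bound -/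
theorem linear_upper (ε : ℝ) (h0 : 0 < ε) (h1 : ε ≤ 1) (k : ℕ) (hk : 2 ≤ k) :
    log (ldRamsey ⌊ε * k⌋₊ k) ≤ 2 * binEntropy (ε / 2) * k + log (2 / ε) := by
  apply log_le_entropy (ldRamsey ⌊ε * k⌋₊ k) k (⌊ε * k⌋₊ + 1) (one_le_ldRamsey hk)
    (ldRamsey_le hk) ε h0 h1
  push_cast
  have := Nat.floor_le (show 0 ≤ ε * k by positivity)
  linarith

/-- linear regime, small `ε` -/
theorem linear_small (η : ℝ) (h0 : 0 < η) : ∃ ε₀ : ℝ, 0 < ε₀ ∧ ∀ ε : ℝ, 0 < ε → ε ≤ ε₀ →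
    ∀ᶠ k : ℕ in atTop, |log (ldRamsey ⌊ε * k⌋₊ k) / k - ε * log (1 / ε)| ≤
      η * (ε * log (1 / ε)) := by
  obtain ⟨A, hA⟩ := exact (η / 4) (by positivity)
  refine ⟨1 / (A + 2), by positivity, fun ε hε hε1 => ?_⟩
  have hεle : ε * (A + 2) ≤ 1 := by
    rw [le_div_iff₀ (by positivity)] at hε1; exact hε1
  have hA0 : (0 : ℝ) ≤ A := Nat.cast_nonneg _
  have hε2 : ε ≤ 1 / 2 := by nlinarith
  have hlogε : 0 < log (1 / ε) := by
    apply log_pos
    rw [lt_div_iff₀ hε]; linarith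
  -- `⌊ε k⌋ / k → ε`
  have hfl : Tendsto (fun k : ℕ => ((⌊ε * (k : ℝ)⌋₊ : ℕ) : ℝ) / k) atTop (𝓝 ε) :=
    (tendsto_nat_floor_mul_div_atTop hε.le).comp tendsto_natCast_atTop_atTop
  have hlim : Tendsto (fun k : ℕ => (((⌊ε * (k : ℝ)⌋₊ : ℕ) : ℝ) / k) *
      log (1 / (((⌊ε * (k : ℝ)⌋₊ : ℕ) : ℝ) / k))) atTop (𝓝 (ε * log (1 / ε))) := by
    apply hfl.mul
    have h1 : Tendsto (fun k : ℕ => 1 / (((⌊ε * (k : ℝ)⌋₊ : ℕ) : ℝ) / k)) atTop (𝓝 (1 / ε)) :=
      tendsto_const_nhds.div hfl hε.ne'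
    exact h1.log (by positivity)
  have hpos : 0 < ε * log (1 / ε) := by positivity
  obtain ⟨c, hc⟩ : ∃ c, c = ε * log (1 / ε) := ⟨_, rfl⟩
  rw [← hc] at hlim hpos ⊢
  have hη' : 0 < min (η / 4) 1 * c := by positivity
  have hev := (Metric.tendsto_nhds.1 hlim) _ hη'
  have hfl2 : Tendsto (fun k : ℕ => ⌊ε * (k : ℝ)⌋₊) atTop atTop :=
    tendsto_nat_floor_atTop.comp (tendsto_natCast_atTop_atTop.const_mul_atTop hε)
  filter_upwards [hev, hfl2.eventually_ge_atTop (A + 1), eventually_ge_atTop 2] with k e1 e2 e3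
  obtain ⟨t, ht⟩ : ∃ t, t = ⌊ε * (k : ℝ)⌋₊ := ⟨_, rfl⟩
  rw [← ht] at e1 e2 ⊢
  have hk0 : (0 : ℝ) < k := by
    have : 0 < k := by omega
    exact_mod_cast this
  have ht0 : (0 : ℝ) < t := by
    have : 0 < t := by omega
    exact_mod_cast this
  have htle : (t : ℝ) ≤ ε * k := by rw [ht]; exact Nat.floor_le (by positivity)
  have hAt : A * t ≤ k := by
    have : (A : ℝ) * t ≤ k := by
      calc (A : ℝ) * t ≤ A * (ε * k) := mul_le_mul_of_nonneg_left htle hA0
        _ = (ε * A) * k := by ring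
        _ ≤ 1 * k := mul_le_mul_of_nonneg_right (by nlinarith) hk0.le
        _ = k := one_mul _
    exact_mod_cast this
  have hex := hA t k (by omega) hAt
  rw [Real.dist_eq] at e1
  have e4 : (t : ℝ) / k * log (1 / ((t : ℝ) / k)) = (t * log ((k : ℝ) / t)) / k := by
    rw [one_div, inv_div]; ring
  rw [e4] at e1
  obtain ⟨u, hu⟩ : ∃ u, u = (t * log ((k : ℝ) / t)) / k := ⟨_, rfl⟩
  have hu' : t * log ((k : ℝ) / t) = u * k := by rw [hu]; field_simp
  rw [← hu] at e1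
  rw [hu'] at hex
  have hex' : |log (ldRamsey t k) / k - u| ≤ (η / 4) * u := by
    have h5 : log (ldRamsey t k) / k - u = (log (ldRamsey t k) - u * k) / k := by
      field_simp
    rw [h5, abs_div, abs_of_pos hk0, div_le_iff₀ hk0]
    linarith
  have m1 : min (η / 4) 1 * c ≤ η / 4 * c := mul_le_mul_of_nonneg_right (min_le_left _ _) hpos.le
  have m2 : min (η / 4) 1 * c ≤ 1 * c := mul_le_mul_of_nonneg_right (min_le_right _ _) hpos.le
  have e5 := abs_lt.1 e1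
  have e6 := abs_le.1 hex'
  rw [abs_le]
  constructor
  · nlinarith
  · nlinarith

/-- colourings of `exp (θ k)` vertices have large dimension -/
theorem large_dim (θ ε : ℝ) (h0 : 0 < ε) (h1 : ε ≤ 1) (h : 2 * binEntropy (ε / 2) < θ) :
    ∀ᶠ k : ℕ in atTop, ∀ (n : ℕ) (G : SimpleGraph (Fin n)), NoMono G k →
      exp (θ * k) ≤ 2 * n → ¬ LdimLe G ⌊ε * k⌋₊ := by
  obtain ⟨K, hK⟩ := exists_nat_gt ((log (2 / ε) + log 2) / (θ - 2 * binEntropy (ε / 2)))
  filter_upwards [eventually_ge_atTop K, eventually_ge_atTop 2] with k hkK hk2 n G hG hn hL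
  have hθ : 0 < θ - 2 * binEntropy (ε / 2) := by linarith
  have hn0 : (0 : ℝ) < n := by
    have := exp_pos (θ * k)
    linarith
  have h2 := lt_ldRamsey hk2 G hG hL
  have h3 : log n ≤ log (ldRamsey ⌊ε * k⌋₊ k) := log_le_log hn0 (by exact_mod_cast h2.le)
  have h4 := linear_upper ε h0 h1 k hk2
  have h5 : θ * k ≤ log 2 + log n := by
    rw [← log_mul (by norm_num) hn0.ne', le_log_iff_exp_le (by positivity)]
    exact hn
  have h6 : (K : ℝ) ≤ k := by exact_mod_cast hkK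
  have h7 : (log (2 / ε) + log 2) / (θ - 2 * binEntropy (ε / 2)) < k := lt_of_lt_of_le hK h6
  rw [div_lt_iff₀ hθ] at h7
  nlinarith

theorem entropy_num : 2 * binEntropy (2 / 25 / 2) < log 2 / 2 := by
  rw [binEntropy_eq_negMulLog_add_negMulLog_one_sub]
  unfold negMulLog
  have h1 : log ((2 : ℝ) / 25 / 2) = - (2 * log 5) := by
    rw [show (2 : ℝ) / 25 / 2 = (5 ^ 2)⁻¹ by norm_num, log_inv, log_pow]
    norm_num
  have h2 : log (1 - (2 : ℝ) / 25 / 2) = - log (25 / 24) := by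
    rw [show (1 - (2 : ℝ) / 25 / 2) = (25 / 24)⁻¹ by norm_num, log_inv]
  have h3 : log (25 / 24 : ℝ) ≤ 1 / 24 := by
    have := log_le_sub_one_of_pos (show (0 : ℝ) < 25 / 24 by norm_num)
    linarith
  have h4 : log (5 : ℝ) ≤ 2 * log 2 + 1 / 4 := by
    have e1 : log (5 : ℝ) = log (2 ^ 2) + log (5 / 4) := by
      rw [← log_mul (by norm_num) (by norm_num)]; norm_num
    have e2 := log_le_sub_one_of_pos (show (0 : ℝ) < 5 / 4 by norm_num)
    rw [e1, log_pow]
    push_cast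
    linarith
  have h5 := log_two_gt_d9
  have h6 := log_two_lt_d9
  rw [h1, h2]
  linarith

/-- the extremal colourings -/
theorem extremal : ∀ᶠ k : ℕ in atTop, ∀ (n : ℕ) (G : SimpleGraph (Fin n)), NoMono G k →
    ((2 : ℝ) ^ ((k : ℝ) / 2) ≤ n ∨ n + 1 = ramsey k) → ¬ LdimLe G ⌊(2 / 25 : ℝ) * k⌋₊ ∧
      LdimLe G (2 * k) := by
  have h := large_dim (log 2 / 2) (2 / 25) (by norm_num) (by norm_num) entropy_num
  filter_upwards [h, eventually_ge_atTop 3] with k hk hk3 n G hG hn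
  have e0 : exp (log 2 / 2 * k) = (2 : ℝ) ^ ((k : ℝ) / 2) := by
    rw [rpow_def_of_pos (by norm_num)]; congr 1; ring
  constructor
  · apply hk n G hG
    rw [e0]
    rcases hn with hn | hn
    · have : (0 : ℝ) ≤ n := Nat.cast_nonneg _
      linarith
    · have hE := Pool.Agent.H818R2.Ram.erdos_lower (k := k) hk3
      rw [← ramsey_eq, ← hn] at hE
      have hE' : (2 : ℝ) ^ k < ((n : ℝ) + 1) ^ 2 := by exact_mod_cast hE
      have hn1 : 1 ≤ n := by
        by_contra hcon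
        have : n = 0 := by omega
        subst this
        have h1 : 2 ^ 3 ≤ 2 ^ k := Nat.pow_le_pow_right (by norm_num) hk3
        norm_num at hE
      have hn1R : (1 : ℝ) ≤ n := by exact_mod_cast hn1
      have e1 : ((2 : ℝ) ^ ((k : ℝ) / 2)) ^ 2 = 2 ^ k := by
        rw [← rpow_natCast, ← rpow_mul (by norm_num), ← rpow_natCast]
        congr 1
        push_cast
        ring
      have e2 : (2 : ℝ) ^ ((k : ℝ) / 2) < (n : ℝ) + 1 := by
        apply lt_of_pow_lt_pow_left₀ 2 (by positivity)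
        rw [e1]; exact hE'
      linarith
  · apply ldimLe_of_card
    have h1 : n < ramsey k := by
      have h2 : ldRamsey (2 * k) k = ramsey k := ldRamsey_eq (by omega)
        ((ramsey_le k (by omega)).trans (Nat.pow_le_pow_right (by norm_num) (by omega)))
      by_contra hcon
      push Not at hcon
      -- restriction
      exact ramsey_mem k _ (noMono_comap hcon G hG)
    have h2 := ramsey_le k (by omega)
    have h3 : 2 ^ (2 * k - 2) ≤ 2 ^ (2 * k + 1) := Nat.pow_le_pow_right (by norm_num) (by omega)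
    omega

end Pool.Agent.U827.LD
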