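import Pool.Agent.U827.LD.Lower

set_option autoImplicit false

/-!
# The lower bound: choice of the parameters
-/

namespace Pool.Agent.U827.LD

open Finset Real

theorem exp_neg_one_lt : exp (-1 : ℝ) < 1 / 2 := by
  have h := exp_one_gt_d9
  rw [exp_neg, inv_lt_comm₀ (exp_pos _) (by norm_num)]
  norm_num
  linarith

theorem lower_finite (η : ℝ) (h0 : 0 < η) (h1 : η ≤ 1) (D : ℕ) (hD : 8 ≤ η * D) (t k s : ℕ)
    (x : ℝ) (hx : x * t = k) (x1 : 4 * log x ≤ x ^ (η / 4)) (x2 : 2 ≤ x ^ (η / 4)) (x3 : 1 ≤ log x)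
    (x0 : 1 ≤ x) (t2 : 12 ≤ η * t) (hs1 : (t + 1) * D ≤ 2 ^ s) (hs2 : 2 ^ s ≤ 2 * ((t + 1) * D))
    (hs3 : D * s ≤ t) (hk : 8 * (D * t) ≤ k) :
    ∃ (n : ℕ) (G : SimpleGraph (Fin n)), G.CliqueFree k ∧ Gᶜ.CliqueFree k ∧ LdimLe G t ∧
      (1 - η) * (t * log x) ≤ log n := by
  obtain ⟨L, hL⟩ : ∃ L, L = log x := ⟨_, rfl⟩
  rw [← hL] at x1 x3
  have hxpos : 0 < x := by linarith
  have htR : (12 : ℝ) ≤ t := by
    have : (0 : ℝ) ≤ t := Nat.cast_nonneg _
    nlinarith
  have ht0 : (0 : ℝ) < t := by linarith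
  have ht1 : 12 ≤ t := by exact_mod_cast htR
  have hDR : (8 : ℝ) ≤ D := by
    have : (0 : ℝ) ≤ D := Nat.cast_nonneg _
    nlinarith
  have hD1 : 8 ≤ D := by exact_mod_cast hDR
  have hst : s ≤ t := by nlinarith
  -- the number of vertices
  obtain ⟨n, hn⟩ : ∃ n : ℕ, n = ⌈exp ((1 - η) * (t * L))⌉₊ := ⟨_, rfl⟩
  have hn1 : exp ((1 - η) * (t * L)) ≤ n := by rw [hn]; exact Nat.le_ceil _
  have hn2 : (n : ℝ) ≤ exp ((1 - η) * (t * L) + 1) := by
    have h2 : (n : ℝ) < exp ((1 - η) * (t * L)) + 1 := by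
      rw [hn]; exact Nat.ceil_lt_add_one (exp_pos _).le
    have h3 : 1 ≤ exp ((1 - η) * (t * L)) := by
      apply one_le_exp
      have : 0 ≤ 1 - η := by linarith
      positivity
    have h4 : (2 : ℝ) ≤ exp 1 := by have := exp_one_gt_d9; linarith
    rw [exp_add]
    nlinarith
  have hnpos : (0 : ℝ) < n := lt_of_lt_of_le (exp_pos _) hn1
  -- the probability of an edge is `1 / q`
  obtain ⟨q, hq⟩ : ∃ q : ℕ, q = ⌊x ^ (1 - η / 4)⌋₊ := ⟨_, rfl⟩
  have hmul : x ^ (1 - η / 4) * x ^ (η / 4) = x := by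
    rw [← rpow_add hxpos]; norm_num
  have hge : x ^ (η / 4) ≤ x ^ (1 - η / 4) := rpow_le_rpow_of_exponent_le x0 (by linarith)
  have hq1 : (q : ℝ) ≤ x ^ (1 - η / 4) := by rw [hq]; exact Nat.floor_le (by positivity)
  have hq2 : x ^ (1 - η / 4) < q + 1 := by rw [hq]; exact Nat.lt_floor_add_one _
  have hq3 : x ^ (1 - η / 4) / 2 ≤ q := by linarith
  have hq4 : (1 : ℝ) ≤ q := by linarith
  have hqn : 1 ≤ q := by exact_mod_cast hq4
  have hq5 : x ^ (1 - η / 2) ≤ q := by
    refine le_trans ?_ hq3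
    have e : x ^ (1 - η / 4) = x ^ (1 - η / 2) * x ^ (η / 4) := by
      rw [← rpow_add hxpos]; congr 1; ring
    rw [e]
    have : 0 < x ^ (1 - η / 2) := rpow_pos_of_pos hxpos _
    nlinarith
  have hlogq : (1 - η / 2) * L ≤ log q := by
    have := log_le_log (rpow_pos_of_pos hxpos _) hq5
    rw [log_rpow hxpos] at this
    rw [hL]; exact this
  -- `r` and `m`
  obtain ⟨r, hr⟩ : ∃ r, r + s = t + 1 := ⟨t + 1 - s, by omega⟩
  have hsR : (D : ℝ) * s ≤ t := by exact_mod_cast hs3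
  have hrR : (r : ℝ) + s = t + 1 := by exact_mod_cast hr
  obtain ⟨m, hm⟩ : ∃ m, m = 2 ^ s := ⟨_, rfl⟩
  rw [← hm] at hs1 hs2
  have hs1R : ((t : ℝ) + 1) * D ≤ m := by exact_mod_cast hs1
  have hm1 : (1 : ℝ) ≤ m := by nlinarith
  -- reduction to the inequality
  have key : (n.choose k : ℝ) * (1 - 1 / (q : ℝ)) ^ (k.choose 2) +
      (n.choose r : ℝ) * (n.choose m : ℝ) * (1 / (q : ℝ)) ^ (r * m) < 1 := by
    have hI : (n.choose k : ℝ) * (1 - 1 / (q : ℝ)) ^ (k.choose 2) < 1 / 2 := by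
      have e1 : (n.choose k : ℝ) ≤ (n : ℝ) ^ k := by exact_mod_cast Nat.choose_le_pow n k
      have e2 : (n : ℝ) ^ k ≤ exp (k * (t * L - 11)) := by
        rw [exp_nat_mul]
        apply pow_le_pow_left₀ hnpos.le
        refine hn2.trans (exp_le_exp.2 ?_)
        nlinarith
      have e3 : (0 : ℝ) ≤ 1 - 1 / (q : ℝ) := by
        have : 1 / (q : ℝ) ≤ 1 := by rw [div_le_one (by linarith)]; exact hq4
        linarith
      have e4 : (1 - 1 / (q : ℝ)) ^ (k.choose 2) ≤ exp ((k.choose 2 : ℕ) * (-(1 / (q : ℝ)))) := by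
        rw [exp_nat_mul]
        apply pow_le_pow_left₀ e3
        have := add_one_le_exp (-(1 / (q : ℝ)))
        linarith
      have e5 : (n.choose k : ℝ) * (1 - 1 / (q : ℝ)) ^ (k.choose 2) ≤
          exp (k * (t * L - 11)) * exp ((k.choose 2 : ℕ) * (-(1 / (q : ℝ)))) :=
        mul_le_mul (e1.trans e2) e4 (by positivity) (exp_pos _).le
      refine lt_of_le_of_lt e5 (lt_of_le_of_lt ?_ exp_neg_one_lt)
      rw [← exp_add]
      apply exp_le_exp.2
      rw [Nat.cast_choose_two]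
      have hkR : (k : ℝ) = x * t := hx.symm
      have hk2 : (8 * 8 * 12 : ℝ) ≤ k := by
        have : 8 * (8 * 12) ≤ k := by
          calc 8 * (8 * 12) ≤ 8 * (D * t) := by
                apply Nat.mul_le_mul_left
                exact Nat.mul_le_mul hD1 ht1
            _ ≤ k := hk
        have h : ((8 * (8 * 12) : ℕ) : ℝ) ≤ k := by exact_mod_cast this
        push_cast at h; linarith
      have e6 : 2 * (q * (t * L)) ≤ (k : ℝ) - 1 := by
        have f1 : (q : ℝ) * L ≤ x / 4 := by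
          calc (q : ℝ) * L ≤ x ^ (1 - η / 4) * (x ^ (η / 4) / 4) := by
                apply mul_le_mul hq1 (by linarith) (by linarith) (by positivity)
            _ = x / 4 := by rw [← mul_div_assoc, hmul]
        have f2 : (q : ℝ) * (t * L) ≤ x * t / 4 := by
          calc (q : ℝ) * (t * L) = (q * L) * t := by ring
            _ ≤ (x / 4) * t := mul_le_mul_of_nonneg_right f1 ht0.le
            _ = x * t / 4 := by ring
        rw [hx] at f2
        linarith
      have e7 : t * L ≤ ((k : ℝ) - 1) / 2 * (1 / q) := by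
        rw [mul_one_div, le_div_iff₀ (by linarith)]
        linarith
      have hk0 : (0 : ℝ) < k := by linarith
      have e8 : (k : ℝ) * (t * L) ≤ k * (((k : ℝ) - 1) / 2 * (1 / q)) :=
        mul_le_mul_of_nonneg_left e7 hk0.le
      have e9 : (k : ℝ) * (k - 1) / 2 * (-(1 / (q : ℝ))) = - (k * (((k : ℝ) - 1) / 2 * (1 / q))) := by
        ring
      rw [e9]
      nlinarith
    have hII : (n.choose r : ℝ) * (n.choose m : ℝ) * (1 / (q : ℝ)) ^ (r * m) < 1 / 2 := by
      have e1 : (n.choose r : ℝ) ≤ (n : ℝ) ^ r := by exact_mod_cast Nat.choose_le_pow n r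
      have e2 : (n.choose m : ℝ) ≤ (n : ℝ) ^ m := by exact_mod_cast Nat.choose_le_pow n m
      have e3 : (n.choose r : ℝ) * (n.choose m : ℝ) ≤ exp ((r + m) * ((1 - η) * (t * L) + 1)) := by
        calc (n.choose r : ℝ) * (n.choose m : ℝ) ≤ (n : ℝ) ^ r * (n : ℝ) ^ m :=
              mul_le_mul e1 e2 (by positivity) (by positivity)
          _ = (n : ℝ) ^ (r + m) := (pow_add _ _ _).symm
          _ ≤ (exp ((1 - η) * (t * L) + 1)) ^ (r + m) := pow_le_pow_left₀ hnpos.le hn2 _
          _ = exp ((r + m) * ((1 - η) * (t * L) + 1)) := by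
              rw [← exp_nat_mul]; push_cast; rfl
      have e4 : (1 / (q : ℝ)) ^ (r * m) ≤ exp (-((r * m) * ((1 - η / 2) * L))) := by
        have hqpos : (0 : ℝ) < q := by linarith
        have f1 : (1 / (q : ℝ)) = exp (-log q) := by
          rw [exp_neg, exp_log hqpos, one_div]
        rw [f1, ← exp_nat_mul]
        apply exp_le_exp.2
        push_cast
        have : (0 : ℝ) ≤ r * m := by positivity
        nlinarith
      have e5 : (n.choose r : ℝ) * (n.choose m : ℝ) * (1 / (q : ℝ)) ^ (r * m) ≤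
          exp ((r + m) * ((1 - η) * (t * L) + 1)) * exp (-((r * m) * ((1 - η / 2) * L))) :=
        mul_le_mul e3 e4 (by positivity) (exp_pos _).le
      refine lt_of_le_of_lt e5 (lt_of_le_of_lt ?_ exp_neg_one_lt)
      rw [← exp_add]
      apply exp_le_exp.2
      -- `(r + m) ((1 - η) t L + 1) - r m (1 - η / 2) L ≤ -1`
      have hD0 : (0 : ℝ) < D := by linarith
      obtain ⟨δ, hδ⟩ : ∃ δ : ℝ, δ = 1 / D := ⟨_, rfl⟩
      have hδ0 : 0 < δ := by rw [hδ]; positivity
      have hδ1 : δ ≤ η / 8 := by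
        rw [hδ, div_le_iff₀ hD0]
        linarith
      have hDδ : (D : ℝ) * δ = 1 := by rw [hδ]; field_simp
      have g1 : (1 - δ) * t ≤ r := by
        have : (s : ℝ) ≤ δ * t := by
          have := mul_le_mul_of_nonneg_left hsR hδ0.le
          nlinarith
        linarith
      have g2 : (r : ℝ) ≤ δ * m := by
        have f1 : (r : ℝ) ≤ t + 1 := by
          have : (0 : ℝ) ≤ s := Nat.cast_nonneg _
          linarith
        have f2 := mul_le_mul_of_nonneg_left hs1R hδ0.le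
        have f3 : δ * (((t : ℝ) + 1) * D) = t + 1 := by
          calc δ * (((t : ℝ) + 1) * D) = (D * δ) * (t + 1) := by ring
            _ = t + 1 := by rw [hDδ, one_mul]
        linarith
      have hm0 : (0 : ℝ) ≤ m := by linarith
      have htL : 0 ≤ t * L := by positivity
      have hA0 : 0 ≤ (1 - η) * (t * L) + 1 := by
        have : 0 ≤ 1 - η := by linarith
        positivity
      have g3 : ((r : ℝ) + m) * ((1 - η) * (t * L) + 1) ≤
          ((1 + δ) * m) * ((1 - η) * (t * L) + 1) :=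
        mul_le_mul_of_nonneg_right (by linarith) hA0
      have g4 : ((1 - δ) * t) * (m * ((1 - η / 2) * L)) ≤ r * (m * ((1 - η / 2) * L)) := by
        apply mul_le_mul_of_nonneg_right g1
        have : 0 ≤ 1 - η / 2 := by linarith
        positivity
      have g5 : (1 + δ) * (1 - η) - (1 - δ) * (1 - η / 2) ≤ - (η / 4) := by nlinarith
      have g6 : ((1 + δ) * (1 - η) - (1 - δ) * (1 - η / 2)) * (t * L) ≤ - (η / 4) * (t * L) :=
        mul_le_mul_of_nonneg_right g5 htL
      have g7 : 3 ≤ (η / 4) * (t * L) := by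
        have f : (η / 4 * t) * 1 ≤ (η / 4 * t) * L := mul_le_mul_of_nonneg_left x3 (by positivity)
        nlinarith
      have g8 : (1 + δ) * ((1 - η) * (t * L) + 1) - (1 - δ) * t * ((1 - η / 2) * L) ≤ -1 := by
        have f : (1 + δ) * ((1 - η) * (t * L) + 1) - (1 - δ) * t * ((1 - η / 2) * L) =
          ((1 + δ) * (1 - η) - (1 - δ) * (1 - η / 2)) * (t * L) + (1 + δ) := by ring
        rw [f]
        linarith
      have g9 : (m : ℝ) * ((1 + δ) * ((1 - η) * (t * L) + 1) -
          (1 - δ) * t * ((1 - η / 2) * L)) ≤ m * (-1) := mul_le_mul_of_nonneg_left g8 hm0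
      have g10 : (m : ℝ) * ((1 + δ) * ((1 - η) * (t * L) + 1) -
          (1 - δ) * t * ((1 - η / 2) * L)) = ((1 + δ) * m) * ((1 - η) * (t * L) + 1) -
          ((1 - δ) * t) * (m * ((1 - η / 2) * L)) := by ring
      have g11 : (r : ℝ) * m * ((1 - η / 2) * L) = r * (m * ((1 - η / 2) * L)) := by ring
      rw [g11]
      linarith
    linarith
  obtain ⟨G, hG1, hG2⟩ := exists_graph' n k r m q hqn key
  refine ⟨n, G, ?_, hG1, ?_, ?_⟩
  · apply cliqueFree_of_noBiclique G k r m _ hG2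
    have f1 : r ≤ t + 1 := by omega
    have f2 : 1 ≤ D := by omega
    calc r + m ≤ (t + 1) + 2 * ((t + 1) * D) := Nat.add_le_add f1 hs2
      _ ≤ (t + 1) * D + 2 * ((t + 1) * D) := by
          apply Nat.add_le_add_right
          exact Nat.le_mul_of_pos_right _ f2
      _ = 3 * (t + 1) * D := by ring
      _ ≤ 8 * t * D := by
          apply Nat.mul_le_mul_right; omega
      _ = 8 * (D * t) := by ring
      _ ≤ k := hk
  · apply ldim_of_noBiclique G t r s hr
    rw [← hm]; exact hG2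
  · rw [← hL]
    rw [le_log_iff_exp_le hnpos]
    exact hn1

end Pool.Agent.U827.LD
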