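import Pool.Agent.U827.LD.Defs
import Pool.Agent.TH615.VCGraph

set_option autoImplicit false

/-!
# Random graphs without small bicliques have small Littlestone dimension
-/

namespace Pool.Agent.U827.LD

open Finset
open Pool.Agent.TH458.VCB

/-- `G` contains no complete bipartite graph with sides of `r` and `m` vertices. -/
def NoBiclique {V : Type} (G : SimpleGraph V) (r m : ℕ) : Prop :=
  ¬ ∃ S W : Finset V, S.card = r ∧ W.card = m ∧ ∀ x ∈ S, ∀ y ∈ W, G.Adj x y

/-- The path to the right in a tree. -/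
theorem tree_path {V : Type} [DecidableEq V] (G : SimpleGraph V) (s : ℕ) : ∀ (r : ℕ) (X : Set V),
    Tree G (r + s) X → ∃ (S : Finset V) (Y : Set V), S.card = r ∧ Y ⊆ X ∧ Tree G s Y ∧
      (∀ x ∈ S, ∀ y ∈ Y, G.Adj x y) ∧ ∀ x ∈ S, ∃ z ∈ X, ¬ G.Adj x z
  | 0, X, h => ⟨∅, X, rfl, subset_rfl, by simpa using h, by simp, by simp⟩
  | r + 1, X, h => by
      rw [show r + 1 + s = (r + s) + 1 by ring] at h
      obtain ⟨v, h1, h2⟩ := h
      obtain ⟨S, Y, hS, hY, hT, hadj, hz⟩ := tree_path G s r _ h1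
      have hvS : v ∉ S := by
        intro hv
        obtain ⟨z, hz1, hz2⟩ := hz v hv
        exact hz2 hz1.2
      refine ⟨insert v S, Y, ?_, ?_, hT, ?_, ?_⟩
      · rw [card_insert_of_notMem hvS, hS]
      · exact fun y hy => (hY hy).1
      · intro x hx y hy
        rcases mem_insert.1 hx with rfl | hx
        · exact (hY hy).2
        · exact hadj x hx y hy
      · intro x hx
        rcases mem_insert.1 hx with rfl | hx
        · have h3 : Tree G 0 {y | y ∈ X ∧ ¬ G.Adj x y} := Tree.anti (Nat.zero_le _) h2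
          obtain ⟨z, hz⟩ := h3
          exact ⟨z, hz.1, hz.2⟩
        · obtain ⟨z, hz1, hz2⟩ := hz x hx
          exact ⟨z, hz1.1, hz2⟩

theorem ldim_of_noBiclique {n : ℕ} (G : SimpleGraph (Fin n)) (t r s : ℕ) (h : r + s = t + 1)
    (hG : NoBiclique G r (2 ^ s)) : LdimLe G t := by
  classical
  intro hT
  rw [← h] at hT
  obtain ⟨S, Y, hS, -, hTY, hadj, -⟩ := tree_path G s r _ hT
  have hY : Tree G s ((Y.toFinset : Finset (Fin n)) : Set (Fin n)) := by
    rw [Set.coe_toFinset]; exact hTY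
  obtain ⟨W, hW, hWc⟩ := exists_subset_card_eq (Tree.two_pow_le hY)
  exact hG ⟨S, W, hS, hWc, fun x hx y hy => hadj x hx y (Set.mem_toFinset.1 (hW hy))⟩

theorem cliqueFree_of_noBiclique {n : ℕ} (G : SimpleGraph (Fin n)) (k r m : ℕ) (h : r + m ≤ k)
    (hG : NoBiclique G r m) : G.CliqueFree k := by
  intro K hK
  have h1 : r + m ≤ K.card := by rw [hK.card_eq]; exact h
  obtain ⟨U, hU, hUc⟩ := exists_subset_card_eq h1
  have h2 : r ≤ U.card := by omega
  obtain ⟨S, hS, hSc⟩ := exists_subset_card_eq h2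
  apply hG
  refine ⟨S, U \ S, hSc, ?_, ?_⟩
  · rw [card_sdiff_of_subset hS]; omega
  · intro x hx y hy
    rw [mem_sdiff] at hy
    apply hK.isClique (hU (hS hx)) (hU hy.1)
    rintro rfl
    exact hy.2 hx

/-- the pairs between two sets -/
def bip {n : ℕ} (S W : Finset (Fin n)) : Finset (Sym2 (Fin n)) := (S ×ˢ W).image (fun p => s(p.1, p.2))

theorem card_bip {n : ℕ} (S W : Finset (Fin n)) (h : Disjoint S W) :
    (bip S W).card = S.card * W.card := by
  unfold bip
  rw [card_image_of_injOn, card_product]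
  intro p hp p' hp' hpp
  have h1 := mem_product.1 (mem_coe.1 hp)
  have h2 := mem_product.1 (mem_coe.1 hp')
  have h3 : s(p.1, p.2) = s(p'.1, p'.2) := hpp
  rw [Sym2.eq_iff] at h3
  rcases h3 with h3 | h3
  · exact Prod.ext h3.1 h3.2
  · exfalso
    have h4 : p.1 ∈ W := by rw [h3.1]; exact h2.2
    exact disjoint_left.1 h h1.1 h4

noncomputable section

open Classical

theorem biclique_count (n r m q : ℕ) (hq : 1 ≤ q) :
    ((univ.filter (fun f : Sym2 (Fin n) → Fin q => ¬ NoBiclique (Gf f) r m)).card : ℝ) ≤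
      (n.choose r : ℝ) * ((n.choose m : ℝ) * ((q : ℝ) ^ Fintype.card (Sym2 (Fin n)) *
        (1 / (q : ℝ)) ^ (r * m))) := by
  set c : ℝ := (q : ℝ) ^ Fintype.card (Sym2 (Fin n)) * (1 / (q : ℝ)) ^ (r * m) with hc
  have hc0 : 0 ≤ c := by positivity
  have h := union_bound (q := q)
    ((powersetCard r (univ : Finset (Fin n))) ×ˢ (powersetCard m (univ : Finset (Fin n))))
    (univ.filter (fun f : Sym2 (Fin n) → Fin q => ¬ NoBiclique (Gf f) r m))
    (fun p => univ.filter (fun f : Sym2 (Fin n) → Fin q =>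
      Disjoint p.1 p.2 ∧ ∀ e ∈ bip p.1 p.2, f e ∈ A0 q)) c (by
      intro f hf
      rw [mem_filter] at hf
      have h1 := hf.2
      unfold NoBiclique at h1
      rw [not_not] at h1
      obtain ⟨S, W, hS, hW, hadj⟩ := h1
      refine ⟨(S, W), ?_, ?_⟩
      · rw [mem_product, mem_powersetCard, mem_powersetCard]
        exact ⟨⟨subset_univ _, hS⟩, ⟨subset_univ _, hW⟩⟩
      · rw [mem_filter]
        refine ⟨mem_univ _, ?_, ?_⟩
        · rw [disjoint_left]
          intro x hx hx'
          exact (hadj x hx x hx').1 rfl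
        · intro e he
          unfold bip at he
          obtain ⟨p, hp, rfl⟩ := mem_image.1 he
          rw [mem_product] at hp
          unfold A0
          rw [mem_filter]
          exact ⟨mem_univ _, (hadj p.1 hp.1 p.2 hp.2).2⟩) (by
      rintro ⟨S, W⟩ hp
      rw [mem_product, mem_powersetCard, mem_powersetCard] at hp
      by_cases hd : Disjoint S W
      · have h2 : (univ.filter (fun f : Sym2 (Fin n) → Fin q =>
            Disjoint S W ∧ ∀ e ∈ bip S W, f e ∈ A0 q)) =
            univ.filter (fun f : Sym2 (Fin n) → Fin q => ∀ e ∈ bip S W, f e ∈ A0 q) := by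
          ext f
          simp [hd]
        show ((univ.filter (fun f : Sym2 (Fin n) → Fin q =>
            Disjoint S W ∧ ∀ e ∈ bip S W, f e ∈ A0 q)).card : ℝ) ≤ c
        rw [h2, count_eq hq, card_bip S W hd, card_A0 hq, hp.1.2, hp.2.2, Nat.cast_one]
      · have h2 : (univ.filter (fun f : Sym2 (Fin n) → Fin q =>
            Disjoint S W ∧ ∀ e ∈ bip S W, f e ∈ A0 q)) = ∅ := by
          apply filter_false_of_mem
          intro f _ h3
          exact hd h3.1
        show ((univ.filter (fun f : Sym2 (Fin n) → Fin q =>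
            Disjoint S W ∧ ∀ e ∈ bip S W, f e ∈ A0 q)).card : ℝ) ≤ c
        rw [h2, card_empty, Nat.cast_zero]
        exact hc0)
  rw [card_product, card_powersetCard, card_powersetCard, card_univ, Fintype.card_fin] at h
  push_cast at h
  rw [← mul_assoc]
  exact h

theorem exists_graph' (n k r m q : ℕ) (hq : 1 ≤ q)
    (hlt : (n.choose k : ℝ) * (1 - 1 / (q : ℝ)) ^ (k.choose 2) +
      (n.choose r : ℝ) * (n.choose m : ℝ) * (1 / (q : ℝ)) ^ (r * m) < 1) :
    ∃ G : SimpleGraph (Fin n), Gᶜ.CliqueFree k ∧ NoBiclique G r m := by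
  by_contra hcon
  push Not at hcon
  have hq0 : (0 : ℝ) < q := by
    have : 0 < q := hq
    exact_mod_cast this
  obtain ⟨M, hM⟩ : ∃ M, M = Fintype.card (Sym2 (Fin n)) := ⟨_, rfl⟩
  have h2 := indep_count n k q hq
  have h3 := biclique_count n r m q hq
  rw [← hM] at h2 h3
  have h4 : (univ : Finset (Sym2 (Fin n) → Fin q)) ⊆
      (univ.filter (fun f : Sym2 (Fin n) → Fin q => ¬ (Gf f)ᶜ.CliqueFree k)) ∪
      (univ.filter (fun f : Sym2 (Fin n) → Fin q => ¬ NoBiclique (Gf f) r m)) := by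
    intro f _
    rw [mem_union, mem_filter, mem_filter]
    by_cases hb : (Gf f)ᶜ.CliqueFree k
    · exact Or.inr ⟨mem_univ _, hcon _ hb⟩
    · exact Or.inl ⟨mem_univ _, hb⟩
  have h5 := (card_le_card h4).trans (card_union_le _ _)
  rw [card_univ, Fintype.card_fun, Fintype.card_fin, ← hM] at h5
  have h6 : (q : ℝ) ^ M ≤
      ((univ.filter (fun f : Sym2 (Fin n) → Fin q => ¬ (Gf f)ᶜ.CliqueFree k)).card : ℝ) +
      ((univ.filter (fun f : Sym2 (Fin n) → Fin q => ¬ NoBiclique (Gf f) r m)).card : ℝ) := by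
    exact_mod_cast h5
  have hqM : (0 : ℝ) < (q : ℝ) ^ M := by positivity
  have h7 : (q : ℝ) ^ M ≤ (q : ℝ) ^ M * ((n.choose k : ℝ) * (1 - 1 / (q : ℝ)) ^ (k.choose 2)
      + (n.choose r : ℝ) * (n.choose m : ℝ) * (1 / (q : ℝ)) ^ (r * m)) := by
    refine h6.trans ((add_le_add h2 h3).trans (le_of_eq ?_))
    ring
  have h8 := mul_lt_mul_of_pos_left hlt hqM
  linarith

end

end Pool.Agent.U827.LD
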